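import Pool.Agent.Run7.h568.DG.Iface

/-! Piece `S_K` of helper568's project DG. -/

open Real Matrix Filter Topology

noncomputable section

namespace Run7.h171.DG

open Run7.h568.DG

section facts

variable {D : Type} [Fintype D] [DecidableEq D] {T : Tri D} (A : Annulus T)

theorem iof2 : T.io A.f2 = A.f1 := by rw [← A.iof, T.io_io]

theorem ioe2 : T.io A.e2 = A.e1 := by rw [← A.ioe, T.io_io]

theorem f1_ne_f2 : A.f1 ≠ A.f2 := by
  intro h; have := T.io_ne A.f1; rw [A.iof] at this; exact this h.symm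

theorem e1_ne_e2 : A.e1 ≠ A.e2 := by
  intro h; have := T.io_ne A.e1; rw [A.ioe] at this; exact this h.symm

theorem f1_ne_e1 : A.f1 ≠ A.e1 := by
  intro h; have := T.sg_ne A.f1; rw [A.sf1] at this; exact this h.symm

theorem e1_ne_b1 : A.e1 ≠ A.b1 := by
  intro h; have := T.sg_ne A.e1; rw [A.se1] at this; exact this h.symm

theorem b1_ne_f1 : A.b1 ≠ A.f1 := by
  intro h; have := T.sg_ne A.b1; rw [A.sb1] at this; exact this h.symm

theorem f2_ne_e2 : A.f2 ≠ A.e2 := by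
  intro h; have := T.sg_ne A.f2; rw [A.sf2] at this; exact this h.symm

theorem e2_ne_b2 : A.e2 ≠ A.b2 := by
  intro h; have := T.sg_ne A.e2; rw [A.se2] at this; exact this h.symm

theorem b2_ne_f2 : A.b2 ≠ A.f2 := by
  intro h; have := T.sg_ne A.b2; rw [A.sb2] at this; exact this h.symm

theorem b1_ne_b2 : A.b1 ≠ A.b2 := by
  intro h
  have : A.f1 = A.f2 := by rw [← A.sb1, ← A.sb2, h]
  exact f1_ne_f2 A this

theorem f1_ne_b2 : A.f1 ≠ A.b2 := by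
  intro h
  have h1 : A.e1 = A.f2 := by rw [← A.sf1, ← A.sb2, h]
  have h2 : A.b1 = A.e2 := by rw [← A.se1, ← A.sf2, h1]
  -- `io e1 = e2 = b1`, `io f2 = f1`, `e1 = f2`
  have h3 : A.e2 = A.f1 := by rw [← A.ioe, h1, iof2]
  exact b1_ne_f1 A (h2.trans h3)

theorem f2_ne_b1 : A.f2 ≠ A.b1 := by
  intro h
  have h1 : A.e2 = A.f1 := by rw [← A.sf2, ← A.sb1, h]
  have h3 : A.e1 = A.f2 := by rw [← ioe2, h1, A.iof]
  exact e1_ne_b1 A (h3.trans h)

theorem f1_ne_e2 : A.f1 ≠ A.e2 := by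
  intro h
  have h1 : A.e1 = A.b2 := by rw [← A.sf1, ← A.se2, h]
  have h3 : A.f2 = A.e1 := by rw [← A.iof, h, ioe2]
  exact b2_ne_f2 A (h1.symm.trans h3.symm)

theorem f2_ne_e1 : A.f2 ≠ A.e1 := by
  intro h
  have h1 : A.e2 = A.b1 := by rw [← A.sf2, ← A.se1, h]
  have h3 : A.f1 = A.e2 := by rw [← iof2, h, A.ioe]
  exact f1_ne_e2 A h3

theorem e1_ne_b2 : A.e1 ≠ A.b2 := by
  intro h
  have h1 : A.b1 = A.f2 := by rw [← A.se1, ← A.sb2, h]
  exact f2_ne_b1 A h1.symm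

theorem e2_ne_b1 : A.e2 ≠ A.b1 := by
  intro h
  have h1 : A.b2 = A.f1 := by rw [← A.se2, ← A.sb1, h]
  exact f1_ne_b2 A h1.symm

theorem mu_e1 : A.mu A.e1 = 0 := by
  simp [Annulus.mu, A.ioe, e1_ne_b1 A, e1_ne_b2 A, e2_ne_b1 A, e2_ne_b2 A]

theorem mu_e2 : A.mu A.e2 = 0 := by
  simp [Annulus.mu, ioe2, e1_ne_b1 A, e1_ne_b2 A, e2_ne_b1 A, e2_ne_b2 A]

theorem mu_f1 : A.mu A.f1 = 0 := by
  simp [Annulus.mu, A.iof, (b1_ne_f1 A).symm, f1_ne_b2 A, f2_ne_b1 A, (b2_ne_f2 A).symm]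

theorem mu_f2 : A.mu A.f2 = 0 := by
  simp [Annulus.mu, iof2, (b1_ne_f1 A).symm, f1_ne_b2 A, f2_ne_b1 A, (b2_ne_f2 A).symm]

theorem mu_io (d : D) : A.mu (T.io d) = A.mu d := by
  simp only [Annulus.mu, T.io_io]; ring

theorem sg_eq {a b : D} (h : T.sg a = b) (d : D) : T.sg d = b ↔ d = a :=
  ⟨fun h2 => T.sg.injective (h2.trans h.symm), fun h2 => by rw [h2, h]⟩

theorem io_eq {a b : D} (h : T.io a = b) (d : D) : T.io d = b ↔ d = a :=
  ⟨fun h2 => T.io.injective (h2.trans h.symm), fun h2 => by rw [h2, h]⟩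

omit [Fintype D] in
theorem or_ind {a b : D} (h : a ≠ b) (d : D) :
    (if d = a ∨ d = b then (1 : ℝ) else 0) = (if d = a then 1 else 0) + (if d = b then 1 else 0) := by
  by_cases h1 : d = a
  · have : d ≠ b := fun h2 => h (h1.symm.trans h2)
    simp [h1, h]
  · by_cases h2 : d = b
    · simp [h2, h.symm]
    · simp [h1, h2]

theorem ue_mem (hcob : S_cob) : A.ue ∈ T.Teich := by
  rw [hcob T]
  constructor
  · intro d
    simp only [Annulus.ue, mu_io, io_eq A.ioe, io_eq (ioe2 A)]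
    rw [or_ind (e1_ne_e2 A), or_ind (e1_ne_e2 A).symm]
    ring
  · refine ⟨fun d => ((if d = A.b1 then (1 : ℝ) else 0) + (if d = A.b2 then 1 else 0)
      - (if d = A.e1 then 1 else 0) - (if d = A.e2 then 1 else 0)
      - (if d = A.f1 then 1 else 0) - (if d = A.f2 then 1 else 0)) / 2, fun d => ?_⟩
    simp only [Annulus.ue, Annulus.mu, or_ind (e1_ne_e2 A), io_eq A.ioe, io_eq (ioe2 A),
      io_eq A.iof, io_eq (iof2 A), sg_eq A.sf1, sg_eq A.se1, sg_eq A.sb1, sg_eq A.sf2,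
      sg_eq A.se2, sg_eq A.sb2]
    ring

theorem uf_mem (hcob : S_cob) : A.uf ∈ T.Teich := by
  rw [hcob T]
  constructor
  · intro d
    simp only [Annulus.uf, mu_io, io_eq A.iof, io_eq (iof2 A)]
    rw [or_ind (f1_ne_f2 A), or_ind (f1_ne_f2 A).symm]
    ring
  · refine ⟨fun d => ((if d = A.b1 then (1 : ℝ) else 0) + (if d = A.b2 then 1 else 0)
      + (if d = A.e1 then 1 else 0) + (if d = A.e2 then 1 else 0)
      - (if d = A.f1 then 1 else 0) - (if d = A.f2 then 1 else 0)) / 2, fun d => ?_⟩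
    simp only [Annulus.uf, Annulus.mu, or_ind (f1_ne_f2 A), io_eq A.ioe, io_eq (ioe2 A),
      io_eq A.iof, io_eq (iof2 A), sg_eq A.sf1, sg_eq A.se1, sg_eq A.sb1, sg_eq A.sf2,
      sg_eq A.se2, sg_eq A.sb2]
    ring

end facts

theorem K (hcob : S_cob) : S_K := by
  intro D _ _ T A
  have ue_e1 : A.ue A.e1 = 1 := by simp [Annulus.ue, mu_e1]
  have ue_e2 : A.ue A.e2 = 1 := by simp [Annulus.ue, mu_e2]
  have ue_f1 : A.ue A.f1 = 0 := by simp [Annulus.ue, mu_f1, f1_ne_e1 A, f1_ne_e2 A]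
  have ue_f2 : A.ue A.f2 = 0 := by simp [Annulus.ue, mu_f2, f2_ne_e1 A, f2_ne_e2 A]
  have uf_f1 : A.uf A.f1 = 1 := by simp [Annulus.uf, mu_f1]
  have uf_f2 : A.uf A.f2 = 1 := by simp [Annulus.uf, mu_f2]
  have uf_e1 : A.uf A.e1 = 0 := by
    simp [Annulus.uf, mu_e1, (f1_ne_e1 A).symm, (f2_ne_e1 A).symm]
  have uf_e2 : A.uf A.e2 = 0 := by
    simp [Annulus.uf, mu_e2, (f1_ne_e2 A).symm, (f2_ne_e2 A).symm]
  refine ⟨ue_mem A hcob, uf_mem A hcob, ue_e1, ue_e2, ue_f1, ue_f2, uf_f1, uf_f2, uf_e1, uf_e2,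
    ?_, ?_, ?_, ?_, ?_, b1_ne_b2 A, ?_⟩
  · intro l th y hy
    have h1 := T.Teich.add_mem (T.Teich.add_mem hy
      (T.Teich.smul_mem (ae l th - y A.e1) (ue_mem A hcob)))
      (T.Teich.smul_mem (af l th - y A.f1) (uf_mem A hcob))
    exact h1
  · intro l th y hy
    have hio := hy.1
    have he : y A.e2 = y A.e1 := by rw [← A.ioe, hio]
    have hf : y A.f2 = y A.f1 := by rw [← A.iof, hio]
    refine ⟨?_, ?_, ?_, ?_⟩
    · simp only [Annulus.K, ue_e1, uf_e1]; ring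
    · simp only [Annulus.K, ue_e2, uf_e2, he]; ring
    · simp only [Annulus.K, ue_f1, uf_f1]; ring
    · simp only [Annulus.K, ue_f2, uf_f2, hf]; ring
  · intro l th y d hd
    obtain ⟨h1, h2, h3, h4⟩ := hd
    simp only [Annulus.K, Annulus.ue, Annulus.uf, h1, h2, h3, h4, or_self, if_false]
    ring
  · exact ⟨(e1_ne_b1 A).symm, (e2_ne_b1 A).symm, b1_ne_f1 A, (f2_ne_b1 A).symm⟩
  · exact ⟨(e1_ne_b2 A).symm, (e2_ne_b2 A).symm, (f1_ne_b2 A).symm, b2_ne_f2 A⟩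
  · rintro d ⟨h1, h2, h3, h4⟩
    refine ⟨fun h => h2 ((io_eq (ioe2 A) d).1 h), fun h => h1 ((io_eq A.ioe d).1 h),
      fun h => h4 ((io_eq (iof2 A) d).1 h), fun h => h3 ((io_eq A.iof d).1 h)⟩

end Run7.h171.DG
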