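import Pool.Agent.Run7.h568.DG.Iface

/-! Piece `S_dir` of helper568's project DG. -/

open Real Matrix Filter Topology

noncomputable section

namespace Run7.h171.DG

open Run7.h568.DG

theorem dir (hcob : S_cob) : S_dir := by
  classical
  intro D _ _ T y hy ε hε
  obtain ⟨hyio, q, hq⟩ := (hcob T y).1 hy
  -- basic identities of `rho`
  have hrsio : ∀ d, T.rho (T.sg (T.io d)) = d := fun d => by
    unfold Tri.rho; rw [T.sg3, T.io_io]
  have hrsg : ∀ d, T.rho (T.sg d) = T.io d := fun d => by
    unfold Tri.rho; rw [T.sg3]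
  have hinj : Function.Injective T.rho := by
    intro a b h
    have h2 : T.sg (T.io (T.rho a)) = T.sg (T.io (T.rho b)) := by rw [h]
    unfold Tri.rho at h2
    rwa [T.io_io, T.sg3, T.io_io, T.sg3] at h2
  obtain ⟨K, hK⟩ := exists_nat_gt (2 / ε)
  have hK0 : (0 : ℝ) < K := lt_trans (by positivity) hK
  set N : D → ℝ := fun d => q d + q (T.sg d) with hN
  have hNio : ∀ d, N (T.io d) = N d := fun d => by
    have h1 := hq d
    have h2 := hq (T.io d)
    rw [hyio, T.io_io] at h2
    simp only [hN]
    linarith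
  set n : D → ℤ := fun d => ⌊(K : ℝ) * N d⌋ with hn
  have hnio : ∀ d, n (T.io d) = n d := fun d => by simp only [hn, hNio]
  set c' : D → ℤ := fun d => n d + n (T.sg (T.sg d)) - n (T.sg d) with hc'
  have hc'sum : ∀ d, c' d + c' (T.sg d) = 2 * n d := fun d => by
    simp only [hc', T.sg3]; ring
  -- minimum along the orbit of rho
  have hex : ∀ d, ∃ m : ℤ, (∀ j, m ≤ c' (T.rho^[j] d)) ∧ ∃ j, c' (T.rho^[j] d) = m := by
    intro d
    obtain ⟨e, he, hmin⟩ := Finset.exists_min_image
      ((Finset.univ : Finset D).filter (fun e => ∃ j, T.rho^[j] d = e)) c'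
      ⟨d, by simp only [Finset.mem_filter, Finset.mem_univ, true_and]; exact ⟨0, rfl⟩⟩
    simp only [Finset.mem_filter, Finset.mem_univ, true_and] at he
    obtain ⟨j, hj⟩ := he
    refine ⟨c' e, fun i => hmin _ (by simp), j, by rw [hj]⟩
  choose mn hmn1 hmn2 using hex
  have hmnrho : ∀ d, mn (T.rho d) = mn d := by
    intro d
    apply le_antisymm
    · obtain ⟨j, hj⟩ := hmn2 d
      rw [← hj]
      -- d is in the forward orbit of rho d
      have hp : T.rho^[Function.minimalPeriod T.rho d] d = d :=
        Function.isPeriodicPt_minimalPeriod T.rho d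
      have hp0 : 0 < Function.minimalPeriod T.rho d :=
        Function.minimalPeriod_pos_of_mem_periodicPts (hinj.mem_periodicPts d)
      obtain ⟨p, hpp⟩ : ∃ p, Function.minimalPeriod T.rho d = p + 1 :=
        ⟨Function.minimalPeriod T.rho d - 1, by omega⟩
      rw [hpp, Function.iterate_succ_apply] at hp
      have := hmn1 (T.rho d) (j + p)
      rwa [Function.iterate_add_apply, hp] at this
    · obtain ⟨j, hj⟩ := hmn2 (T.rho d)
      rw [← hj]
      have := hmn1 d (j + 1)
      rwa [Function.iterate_succ_apply] at this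
  have hmnio : ∀ d, mn (T.io d) = mn (T.sg d) := fun d => by
    rw [← hrsg d, hmnrho]
  have hmnsio : ∀ d, mn (T.sg (T.io d)) = mn d := fun d => by
    rw [← hmnrho (T.sg (T.io d)), hrsio]
  set c : D → ℕ := fun d => (c' d - mn d).toNat with hc
  have hcz : ∀ d, (c d : ℤ) = c' d - mn d := fun d => by
    simp only [hc]
    rw [Int.toNat_of_nonneg]
    have := hmn1 d 0
    simp only [Function.iterate_zero, id] at this
    omega
  have hmatchz : ∀ d, (c (T.io d) : ℤ) + c (T.sg (T.io d)) = c d + c (T.sg d) := by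
    intro d
    rw [hcz, hcz, hcz, hcz, hmnio, hmnsio]
    have h1 := hc'sum d
    have h2 := hc'sum (T.io d)
    rw [hnio] at h2
    linarith
  refine ⟨c, ?_, ?_, 2 * K, by positivity, ?_⟩
  · intro d
    unfold Tri.num
    have := hmatchz d
    omega
  · intro d
    obtain ⟨j, hj⟩ := hmn2 d
    refine ⟨j, ?_⟩
    have hmnj : ∀ j, mn (T.rho^[j] d) = mn d := by
      intro j
      induction j with
      | zero => rfl
      | succ k ih => rw [Function.iterate_succ_apply', hmnrho, ih]
    have := hcz (T.rho^[j] d)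
    rw [hj, hmnj] at this
    omega
  · intro d
    have hd1 : dirc T c d = (c (T.sg d) : ℝ) - c (T.io d) := by
      unfold dirc Tri.num
      have := hmatchz d
      have hr : (c (T.io d) : ℝ) + c (T.sg (T.io d)) = c d + c (T.sg d) := by exact_mod_cast this
      rw [T.sg3, T.sg3]
      push_cast
      linarith
    have hd2 : dirc T c d = ((n (T.sg d) : ℝ) - n (T.sg (T.sg d))
        + n (T.sg (T.io d)) - n (T.sg (T.sg (T.io d)))) := by
      rw [hd1]
      have h1 : ((c (T.sg d) : ℤ) : ℝ) = c' (T.sg d) - mn (T.sg d) := by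
        rw [hcz]; push_cast; ring
      have h2 : ((c (T.io d) : ℤ) : ℝ) = c' (T.io d) - mn (T.sg d) := by
        rw [hcz, hmnio]; push_cast; ring
      rw [Int.cast_natCast] at h1 h2
      rw [h1, h2]
      simp only [hc', T.sg3, hnio]
      push_cast
      ring
    have hfl : ∀ e, |(n e : ℝ) - K * N e| ≤ 1 := by
      intro e
      rw [abs_le]
      constructor
      · have := Int.lt_floor_add_one ((K : ℝ) * N e)
        simp only [hn]; linarith
      · have := Int.floor_le ((K : ℝ) * N e)
        simp only [hn]; linarith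
    have hyN : 2 * y d = N (T.sg d) - N (T.sg (T.sg d)) + N (T.sg (T.io d))
        - N (T.sg (T.sg (T.io d))) := by
      simp only [hN, T.sg3]
      have h1 := hq d
      have h2 := hq (T.io d)
      rw [hyio, T.io_io] at h2
      linarith
    have h1 := abs_le.1 (hfl (T.sg d))
    have h2 := abs_le.1 (hfl (T.sg (T.sg d)))
    have h3 := abs_le.1 (hfl (T.sg (T.io d)))
    have h4 := abs_le.1 (hfl (T.sg (T.sg (T.io d))))
    have hbound : |dirc T c d - 2 * K * y d| ≤ 4 := by
      have : 2 * K * y d = K * (N (T.sg d) - N (T.sg (T.sg d)) + N (T.sg (T.io d))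
        - N (T.sg (T.sg (T.io d)))) := by rw [← hyN]; ring
      rw [this, hd2, abs_le]
      constructor <;> nlinarith [h1.1, h1.2, h2.1, h2.2, h3.1, h3.2, h4.1, h4.2]
    have hid : dirc T c d / (2 * K) - y d = (dirc T c d - 2 * K * y d) / (2 * K) := by
      field_simp
    rw [hid, abs_div, abs_of_pos (by positivity : (0 : ℝ) < 2 * K)]
    rw [div_lt_iff₀ (by positivity)]
    calc |dirc T c d - 2 * K * y d| ≤ 4 := hbound
      _ < ε * (2 * K) := by
        have : 2 < K * ε := by rwa [div_lt_iff₀ hε] at hK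
        nlinarith

end Run7.h171.DG
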